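import Pool.Agent.Work.MP_48678a_mult.Main

/-!
# Multiples of an irrational number: the exponent is sharp
-/

set_option autoImplicit false

namespace MahlerMult

open Finset LiouvilleNumber

open scoped Classical in
/-- The numbers below `b ^ L` none of whose base `b` digits is `d` (leading zeros included). -/
noncomputable def Good (b d L : ℕ) : Finset ℕ :=
  {n ∈ range (b ^ L) | ∀ s : ℕ, n / b ^ s % b ≠ d}

lemma good_card {b d : ℕ} (hb : 2 ≤ b) (hd1 : 1 ≤ d) (hd : d < b) (L : ℕ) :
    (b - 1) ^ L ≤ #(Good b d L) := by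
  classical
  induction L with
  | zero =>
    have : 0 ∈ Good b d 0 := by
      simp only [Good, mem_filter, mem_range]
      refine ⟨by simp, fun s => ?_⟩
      simp only [Nat.zero_div, Nat.zero_mod]
      omega
    simpa using (card_pos.mpr ⟨0, this⟩ : 0 < #(Good b d 0))
  | succ L ih =>
    have hE : #((range b).erase d) = b - 1 := by
      rw [card_erase_of_mem (mem_range.mpr hd), card_range]
    have h1 : #((Good b d L) ×ˢ ((range b).erase d)) ≤ #(Good b d (L + 1)) := by
      refine card_le_card_of_injOn (fun x => b * x.1 + x.2) ?_ ?_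
      · intro x hx
        simp only [coe_product, Set.mem_prod, mem_coe] at hx
        obtain ⟨h1, h2⟩ := hx
        simp only [Good, mem_filter, mem_range] at h1
        simp only [mem_erase, mem_range] at h2
        simp only [Good, coe_filter, mem_range, Set.mem_ofPred_eq]
        refine ⟨?_, fun s => ?_⟩
        · have : b * x.1 + x.2 < b * (x.1 + 1) := by rw [mul_add]; omega
          calc b * x.1 + x.2 < b * (x.1 + 1) := this
            _ ≤ b * b ^ L := Nat.mul_le_mul_left _ h1.1
            _ = b ^ (L + 1) := (pow_succ' _ _).symm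
        · rcases s with _ | s
          · rw [pow_zero, Nat.div_one, Nat.mul_add_mod, Nat.mod_eq_of_lt h2.2]
            exact h2.1
          · rw [pow_succ', ← Nat.div_div_eq_div_mul, Nat.mul_add_div (by omega),
              Nat.div_eq_of_lt h2.2, add_zero]
            exact h1.2 s
      · intro x hx y hy hxy
        simp only [coe_product, Set.mem_prod, mem_coe, mem_erase, mem_range] at hx hy
        have e2 : x.2 = y.2 := by
          have := congrArg (· % b) hxy
          simp only [Nat.mul_add_mod] at this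
          rwa [Nat.mod_eq_of_lt hx.2.2, Nat.mod_eq_of_lt hy.2.2] at this
        have e1 : x.1 = y.1 := by
          have h3 : b * x.1 + x.2 = b * y.1 + y.2 := hxy
          rw [e2] at h3
          exact Nat.eq_of_mul_eq_mul_left (by omega) (Nat.add_right_cancel h3)
        exact Prod.ext e1 e2
    rw [card_product, hE] at h1
    calc (b - 1) ^ (L + 1) = (b - 1) ^ L * (b - 1) := pow_succ _ _
      _ ≤ #(Good b d L) * (b - 1) := Nat.mul_le_mul_right _ ih
      _ ≤ _ := h1

/-- If no digit of `n` is `d`, then the digit `d` occurs only finitely often in the expansion of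
`n` times the Liouville number of the base. -/
lemma good_liouville {b d n : ℕ} (hb : 2 ≤ b) (hn : ∀ s : ℕ, n / b ^ s % b ≠ d) :
    FinitelyOften b d (n * liouvilleNumber b) := by
  have hbr : (2 : ℝ) ≤ b := by exact_mod_cast hb
  have hb0 : (0 : ℝ) < b := by linarith
  have hb1 : (1 : ℝ) < b := by linarith
  obtain ⟨L, hL⟩ : ∃ L : ℕ, n < b ^ L := ⟨n, Nat.lt_pow_self (by omega)⟩
  refine ⟨(L + 1).factorial + 1, fun i hi => ?_⟩
  -- the block containing `i`
  obtain ⟨k, hkL, hk1, hk2⟩ : ∃ k : ℕ, L + 1 ≤ k ∧ k.factorial < i ∧ i ≤ (k + 1).factorial := by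
    classical
    have hex : ∃ m : ℕ, i ≤ m.factorial := ⟨i, Nat.self_le_factorial i⟩
    obtain ⟨m, hm, hmin⟩ : ∃ m : ℕ, i ≤ m.factorial ∧ ∀ m' < m, ¬ i ≤ m'.factorial :=
      ⟨Nat.find hex, Nat.find_spec hex, fun m' h => Nat.find_min hex h⟩
    have hm1 : L + 1 < m := by
      by_contra hcon
      have : m.factorial ≤ (L + 1).factorial := Nat.factorial_le (by omega)
      omega
    refine ⟨m - 1, by omega, ?_, ?_⟩
    · exact not_le.mp (hmin (m - 1) (by omega))
    · rwa [Nat.sub_add_cancel (by omega)]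
  obtain ⟨p, hp⟩ := partialSum_eq_rat (m := b) (by omega) k
  set s := (k + 1).factorial - i with hs
  have his : i + s = (k + 1).factorial := by omega
  -- the tail
  set T : ℝ := n * (b : ℝ) ^ i * remainder b (k + 1) with hT
  have hrem0 : 0 < remainder (b : ℝ) (k + 1) := remainder_pos hb1 _
  have hT0 : 0 ≤ T := by positivity
  have hT1 : T * (b : ℝ) ^ s < 1 := by
    have h1 : remainder (b : ℝ) (k + 1) < 2 * (1 / (b : ℝ) ^ (k + 1 + 1).factorial) := by
      refine (remainder_lt' (k + 1) hb1).trans_le ?_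
      have := sub_one_div_inv_le_two hbr
      gcongr
    have h2 : (k + 1 + 1).factorial = (k + 1).factorial + (k + 1) * (k + 1).factorial := by
      rw [Nat.factorial_succ (k + 1)]
      ring
    have h3 : k + 1 ≤ (k + 1) * (k + 1).factorial := Nat.le_mul_of_pos_right _ (Nat.factorial_pos _)
    have h4 : (n : ℝ) * 2 ≤ (b : ℝ) ^ ((k + 1) * (k + 1).factorial) := by
      have : n * 2 ≤ b ^ ((k + 1) * (k + 1).factorial) := by
        calc n * 2 ≤ b ^ L * b := Nat.mul_le_mul hL.le hb
          _ = b ^ (L + 1) := (pow_succ _ _).symm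
          _ ≤ b ^ ((k + 1) * (k + 1).factorial) := Nat.pow_le_pow_right (by omega) (by omega)
      exact_mod_cast this
    rcases Nat.eq_zero_or_pos n with hn0 | hn0
    · rw [hT, hn0]
      simp
    have hn0' : (0 : ℝ) < n := by exact_mod_cast hn0
    calc T * (b : ℝ) ^ s = n * ((b : ℝ) ^ i * (b : ℝ) ^ s) * remainder b (k + 1) := by
          rw [hT]; ring
      _ = n * (b : ℝ) ^ (k + 1).factorial * remainder b (k + 1) := by rw [← pow_add, his]
      _ < n * (b : ℝ) ^ (k + 1).factorial * (2 * (1 / (b : ℝ) ^ (k + 1 + 1).factorial)) :=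
          mul_lt_mul_of_pos_left h1 (by positivity)
      _ = (n * 2) / (b : ℝ) ^ ((k + 1) * (k + 1).factorial) := by
          rw [h2, pow_add]
          field_simp
      _ ≤ 1 := by
          rw [div_le_one (by positivity)]
          exact h4
  -- the decomposition
  have hdec : (b : ℝ) ^ i * (n * liouvilleNumber b) =
      ((b * (n * p * b ^ (i - k.factorial - 1)) : ℕ) : ℝ) + (n + T * (b : ℝ) ^ s) / (b : ℝ) ^ s := by
    have hα : liouvilleNumber (b : ℝ) =
        p / ((b ^ k.factorial : ℕ) : ℝ) + 1 / (b : ℝ) ^ (k + 1).factorial + remainder b (k + 1) := by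
      rw [← partialSum_add_remainder hb1 (k + 1), partialSum_succ, hp]
    have h5 : (b : ℝ) ^ i = (b : ℝ) ^ k.factorial * ((b : ℝ) * (b : ℝ) ^ (i - k.factorial - 1)) := by
      rw [← pow_succ', ← pow_add]
      congr 1
      omega
    have h6 : (b : ℝ) ^ (k + 1).factorial = (b : ℝ) ^ i * (b : ℝ) ^ s := by rw [← pow_add, his]
    have hbs : (b : ℝ) ^ s ≠ 0 := by positivity
    have hbi : (b : ℝ) ^ i ≠ 0 := by positivity
    have hbk : (b : ℝ) ^ k.factorial ≠ 0 := by positivity
    have e1 : (b : ℝ) ^ i * (n * (p / ((b ^ k.factorial : ℕ) : ℝ))) =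
        ((b * (n * p * b ^ (i - k.factorial - 1)) : ℕ) : ℝ) := by
      rw [h5]
      push_cast
      field_simp
    have e2 : (b : ℝ) ^ i * (n * (1 / (b : ℝ) ^ (k + 1).factorial)) = n / (b : ℝ) ^ s := by
      rw [h6]
      field_simp
    have e3 : (b : ℝ) ^ i * (n * remainder b (k + 1)) = T * (b : ℝ) ^ s / (b : ℝ) ^ s := by
      rw [mul_div_cancel_right₀ _ hbs, hT]
      ring
    rw [hα, add_div, ← e1, ← e2, ← e3]
    ring
  obtain ⟨w, hw⟩ : ∃ w : ℕ, n / b ^ s = w := ⟨_, rfl⟩
  have hfloor : ⌊(b : ℝ) ^ i * (n * liouvilleNumber b)⌋ =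
      ((b * (n * p * b ^ (i - k.factorial - 1)) : ℕ) : ℤ) + (w : ℤ) := by
    rw [hdec, Int.floor_natCast_add]
    congr 1
    rw [Int.floor_eq_iff]
    have hbs : (0 : ℝ) < (b : ℝ) ^ s := by positivity
    have g1 : b ^ s * (n / b ^ s) ≤ n := Nat.mul_div_le n (b ^ s)
    have g2 : n < b ^ s * (n / b ^ s + 1) := Nat.lt_mul_div_succ n (by positivity)
    rw [hw] at g1 g2
    have g1' : (b : ℝ) ^ s * (w : ℝ) ≤ n := by exact_mod_cast g1
    have g2' : (n : ℝ) + 1 ≤ (b : ℝ) ^ s * ((w : ℝ) + 1) := by exact_mod_cast g2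
    have hTs : 0 ≤ T * (b : ℝ) ^ s := by positivity
    constructor
    · rw [le_div_iff₀ hbs, Int.cast_natCast]
      linarith
    · rw [div_lt_iff₀ hbs, Int.cast_natCast]
      linarith
  rw [hfloor]
  intro hcon
  apply hn s
  rw [hw]
  have : (b * (n * p * b ^ (i - k.factorial - 1)) + w) % b = d := by exact_mod_cast hcon
  rwa [Nat.mul_add_mod] at this

/-- Lower bound: for `α` the Liouville number of the base, at least `N ^ θ / (b - 1)` of the
multiples `n * α`, `n < N`, have the digit `d` only finitely often. -/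
theorem lower {b : ℕ} (hb : 2 ≤ b) :
    ∃ α : ℝ, Irrational α ∧ ∀ d : ℕ, 1 ≤ d → d < b → ∀ N : ℕ, 1 ≤ N →
      (N : ℝ) ^ (Real.log (b - 1) / Real.log b) ≤
        (b - 1) * ({n : ℕ | n < N ∧ FinitelyOften b d (n * α)}.ncard : ℝ) := by
  refine ⟨liouvilleNumber b, (liouville_liouvilleNumber hb).irrational, ?_⟩
  intro d hd1 hd N hN
  have hbr : (2 : ℝ) ≤ b := by exact_mod_cast hb
  have hb0 : (0 : ℝ) < b := by linarith
  have hb1 : (1 : ℝ) < b := by linarith
  set θ := Real.log (b - 1) / Real.log b with hθ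
  have hlogb : 0 < Real.log b := Real.log_pos hb1
  have hθ0 : 0 ≤ θ := div_nonneg (Real.log_nonneg (by linarith)) hlogb.le
  have hpow : (b : ℝ) ^ θ = b - 1 := by
    rw [Real.rpow_def_of_pos hb0, hθ, mul_div_cancel₀ _ hlogb.ne', Real.exp_log (by linarith)]
  have hcast : ((b - 1 : ℕ) : ℝ) = (b : ℝ) - 1 := by
    rw [Nat.cast_sub (by omega)]
    simp
  set L := Nat.log b N with hL
  have hlo : b ^ L ≤ N := Nat.pow_log_le_self b (by omega)
  have hhi : N < b ^ (L + 1) := Nat.lt_pow_succ_log_self (by omega) N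
  have hcard : (b - 1) ^ L ≤ {n : ℕ | n < N ∧ FinitelyOften b d (n * liouvilleNumber b)}.ncard := by
    refine (good_card hb hd1 hd L).trans ?_
    rw [← Set.ncard_coe_finset]
    refine Set.ncard_le_ncard ?_ ((Set.finite_lt_nat N).subset fun n hn => hn.1)
    intro n hn
    have hn' : n ∈ Good b d L := hn
    simp only [Good, mem_filter, mem_range] at hn'
    exact ⟨hn'.1.trans_le hlo, good_liouville hb hn'.2⟩
  calc (N : ℝ) ^ θ ≤ ((b : ℝ) ^ (L + 1)) ^ θ := by
        refine Real.rpow_le_rpow (by positivity) ?_ hθ0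
        exact_mod_cast hhi.le
    _ = ((b : ℝ) - 1) ^ (L + 1) := by
        rw [← Real.rpow_natCast (b : ℝ) (L + 1), ← Real.rpow_mul hb0.le,
          mul_comm (((L + 1 : ℕ)) : ℝ) θ, Real.rpow_mul hb0.le, hpow, Real.rpow_natCast]
    _ = ((b : ℝ) - 1) * (((b - 1) ^ L : ℕ) : ℝ) := by
        push_cast [hcast]
        rw [pow_succ']
    _ ≤ _ := by
        refine mul_le_mul_of_nonneg_left ?_ (by linarith)
        exact_mod_cast hcard

end MahlerMult
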