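import Pool.Agent.Work.MP_48678a_mult.Upper

/-!
# Multiples of an irrational number: the counting argument along one approximation
-/

set_option autoImplicit false

namespace MahlerMult

open Finset

/-- One residue class modulo the denominator of a good approximation. -/
lemma class_bound {b d : ℕ} (hb : 2 ≤ b) (hd : d < b) {β γ ξ : ℝ} {q M r : ℕ} {p : ℤ}
    (hξ : ξ = q * β - p) (hξ0 : ξ ≠ 0) (hM : 1 ≤ M) (hMξ : M * |ξ| < 1)
    (G : Finset ℕ) (hG : ∀ n ∈ G, n % q = r ∧ n / q ≤ M)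
    (hdig : ∀ n ∈ G, ∀ i : ℕ, ⌊(b : ℝ) ^ i * (n * β + γ)⌋ % (b : ℤ) ≠ (d : ℤ)) :
    #G ≤ 2 * (b - 1) ^ (Nat.log b M + 2) := by
  have hb1 : (1 : ℝ) < b := by exact_mod_cast (by omega : 1 < b)
  have hb0 : (0 : ℝ) < b := by linarith
  have hξp : 0 < |ξ| := abs_pos.mpr hξ0
  -- the scale `m1`
  obtain ⟨m1, h1, h2⟩ : ∃ m1 : ℕ, 1 ≤ (b : ℝ) ^ m1 * |ξ| ∧ (b : ℝ) ^ m1 * |ξ| < b := by
    have hex : ∃ m : ℕ, 1 ≤ (b : ℝ) ^ m * |ξ| := by
      obtain ⟨m, hm⟩ := pow_unbounded_of_one_lt (1 / |ξ|) hb1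
      refine ⟨m, ?_⟩
      rw [div_lt_iff₀ hξp] at hm
      exact hm.le
    classical
    refine ⟨Nat.find hex, Nat.find_spec hex, ?_⟩
    rcases Nat.eq_zero_or_pos (Nat.find hex) with h0 | hpos
    · rw [h0, pow_zero, one_mul]
      have hM1 : (1 : ℝ) ≤ M := by exact_mod_cast hM
      nlinarith [hMξ, hξp]
    · have hlt := Nat.find_min hex (Nat.sub_lt hpos one_pos)
      push Not at hlt
      have hpow : (b : ℝ) ^ Nat.find hex = b * (b : ℝ) ^ (Nat.find hex - 1) := by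
        rw [← pow_succ']
        congr 1
        omega
      rw [hpow, mul_assoc]
      nlinarith [hlt, hb0]
  set B : ℝ := r * β + γ + min 0 (M * ξ) with hB
  set u : ℤ := ⌊(b : ℝ) ^ m1 * B⌋ with hu
  set x : ℕ → ℝ := fun n => r * β + γ + ((n / q : ℕ) : ℝ) * ξ with hx
  set v : ℕ → ℤ := fun n => ⌊(b : ℝ) ^ m1 * x n⌋ with hv
  have hbm : (0 : ℝ) < (b : ℝ) ^ m1 := by positivity
  -- relation with the digits
  have hav : ∀ n ∈ G, Avoids b d m1 (v n) := by
    intro n hn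
    obtain ⟨k, hk⟩ : ∃ k : ℕ, n / q = k := ⟨_, rfl⟩
    have hnq : (n : ℝ) = q * (k : ℝ) + r := by
      have := Nat.div_add_mod n q
      rw [(hG n hn).1, hk] at this
      exact_mod_cast this.symm
    have h3 : (b : ℝ) ^ m1 * x n = (b : ℝ) ^ m1 * (n * β + γ) +
        (((b : ℤ) ^ m1 * (-(k : ℤ) * p) : ℤ) : ℝ) := by
      push_cast
      rw [hx]
      simp only
      rw [hk, hnq, hξ]
      ring
    have h4 : v n = ⌊(b : ℝ) ^ m1 * (n * β + γ)⌋ + (b : ℤ) ^ m1 * (-(k : ℤ) * p) := by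
      rw [hv]
      simp only
      rw [h3, Int.floor_add_intCast]
    rw [h4]
    exact avoids_add hb _ (avoids_floor hb (hdig n hn) m1)
  -- the range of the values
  have hlow : ∀ n ∈ G, u ≤ v n := by
    intro n hn
    refine Int.floor_le_floor (mul_le_mul_of_nonneg_left ?_ hbm.le)
    rw [hB, hx]
    simp only
    have hn0 : (0 : ℝ) ≤ ((n / q : ℕ) : ℝ) := by positivity
    have hnM : ((n / q : ℕ) : ℝ) ≤ M := by exact_mod_cast (hG n hn).2
    have : min 0 (M * ξ) ≤ ((n / q : ℕ) : ℝ) * ξ := by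
      rcases le_total 0 ξ with h | h
      · exact (min_le_left _ _).trans (mul_nonneg hn0 h)
      · exact (min_le_right _ _).trans (by nlinarith)
    linarith
  have hup : ∀ n ∈ G, ((v n : ℤ) : ℝ) < u + 1 + (b : ℝ) ^ m1 * (M * |ξ|) := by
    intro n hn
    have hn0 : (0 : ℝ) ≤ ((n / q : ℕ) : ℝ) := by positivity
    have hnM : ((n / q : ℕ) : ℝ) ≤ M := by exact_mod_cast (hG n hn).2
    have h5 : x n ≤ B + M * |ξ| := by
      rw [hB, hx]
      simp only
      have : ((n / q : ℕ) : ℝ) * ξ ≤ min 0 (M * ξ) + M * |ξ| := by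
        rcases le_total 0 ξ with h | h
        · rw [min_eq_left (by positivity), abs_of_nonneg h]
          nlinarith
        · rw [min_eq_right (by nlinarith [hn0.trans hnM]), abs_of_nonpos h]
          nlinarith
      linarith
    have h6 : ((v n : ℤ) : ℝ) ≤ (b : ℝ) ^ m1 * x n := Int.floor_le _
    have h7 : (b : ℝ) ^ m1 * B < u + 1 := Int.lt_floor_add_one _
    have h8 : (b : ℝ) ^ m1 * x n ≤ (b : ℝ) ^ m1 * (B + M * |ξ|) :=
      mul_le_mul_of_nonneg_left h5 hbm.le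
    nlinarith
  have hinj : Set.InjOn v (G : Set ℕ) := by
    intro n hn n' hn' hvv
    have h9 : |(b : ℝ) ^ m1 * x n - (b : ℝ) ^ m1 * x n'| < 1 :=
      Int.abs_sub_lt_one_of_floor_eq_floor hvv
    have h10 : n / q = n' / q := by
      by_contra hne
      have h11 : (1 : ℝ) ≤ |((n / q : ℕ) : ℝ) - ((n' / q : ℕ) : ℝ)| := by
        have : (1 : ℤ) ≤ |((n / q : ℕ) : ℤ) - ((n' / q : ℕ) : ℤ)| := by
          apply Int.one_le_abs
          intro h0
          apply hne
          omega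
        exact_mod_cast this
      have h12 : (b : ℝ) ^ m1 * x n - (b : ℝ) ^ m1 * x n' =
          ((b : ℝ) ^ m1 * ξ) * (((n / q : ℕ) : ℝ) - ((n' / q : ℕ) : ℝ)) := by
        rw [hx]
        simp only
        ring
      rw [h12, abs_mul, abs_mul, abs_of_pos hbm] at h9
      nlinarith
    have e1 := Nat.div_add_mod n q
    have e2 := Nat.div_add_mod n' q
    rw [(hG n hn).1] at e1
    rw [(hG n' hn').1] at e2
    rw [← e1, ← e2, h10]
  set s := Nat.log b M + 2 with hs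
  have hMlt : M < b ^ (Nat.log b M + 1) := Nat.lt_pow_succ_log_self (by omega) M
  rcases le_or_gt s m1 with hsm | hsm
  · -- small scale
    have hsub : ∀ n ∈ G, v n ∈ {w ∈ Ico u (u + (b : ℤ) ^ s) | Avoids b d s w} := by
      intro n hn
      rw [mem_filter, mem_Ico]
      refine ⟨⟨hlow n hn, ?_⟩, avoids_mono (hav n hn) hsm⟩
      have h13 : (b : ℝ) ^ m1 * (M * |ξ|) < b * M := by
        have hM0 : (0 : ℝ) < M := by exact_mod_cast hM
        nlinarith [mul_lt_mul_of_pos_right h2 hM0]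
      have h14 : ((v n : ℤ) : ℝ) < ((u + 1 + b * M : ℤ) : ℝ) := by
        push_cast
        linarith [hup n hn]
      have h15 : v n < u + 1 + b * M := by exact_mod_cast h14
      have h16 : (b : ℤ) * M + 1 ≤ (b : ℤ) ^ s := by
        have : b * M + 1 ≤ b ^ s := by
          rw [hs, show Nat.log b M + 2 = (Nat.log b M + 1) + 1 from rfl, pow_succ']
          nlinarith
        exact_mod_cast this
      linarith
    have h17 : #G ≤ #{w ∈ Ico u (u + (b : ℤ) ^ s) | Avoids b d s w} :=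
      card_le_card_of_injOn v hsub hinj
    have h18 := count_avoids hb hd s u
    omega
  · -- large scale
    have hsub : ∀ n ∈ G, v n ∈ {w ∈ Ico u (u + (b : ℤ) ^ m1) | Avoids b d m1 w} ∪
        {w ∈ Ico (u + (b : ℤ) ^ m1) (u + (b : ℤ) ^ m1 + (b : ℤ) ^ m1) | Avoids b d m1 w} := by
      intro n hn
      have h13 : (b : ℝ) ^ m1 * (M * |ξ|) < (b : ℝ) ^ m1 := by nlinarith
      have h14 : ((v n : ℤ) : ℝ) < ((u + 1 + (b : ℤ) ^ m1 : ℤ) : ℝ) := by
        push_cast
        linarith [hup n hn]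
      have h15 : v n < u + 1 + (b : ℤ) ^ m1 := by exact_mod_cast h14
      have h16 : (1 : ℤ) ≤ (b : ℤ) ^ m1 := one_le_pow₀ (by exact_mod_cast (by omega : 1 ≤ b))
      have h17 := hlow n hn
      rw [mem_union, mem_filter, mem_filter, mem_Ico, mem_Ico]
      rcases lt_or_ge (v n) (u + (b : ℤ) ^ m1) with h | h
      · exact Or.inl ⟨⟨h17, h⟩, hav n hn⟩
      · exact Or.inr ⟨⟨h, by linarith⟩, hav n hn⟩
    have h17 := card_le_card_of_injOn v hsub hinj
    have h18 := count_avoids hb hd m1 u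
    have h19 := count_avoids hb hd m1 (u + (b : ℤ) ^ m1)
    have h20 : (b - 1) ^ m1 ≤ (b - 1) ^ s := Nat.pow_le_pow_right (by omega) hsm.le
    have h21 := card_union_le {w ∈ Ico u (u + (b : ℤ) ^ m1) | Avoids b d m1 w}
      {w ∈ Ico (u + (b : ℤ) ^ m1) (u + (b : ℤ) ^ m1 + (b : ℤ) ^ m1) | Avoids b d m1 w}
    omega

end MahlerMult
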