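import Pool.Agent.Work.MP_48678a_mult.Core

/-!
# Multiples of an irrational number: the upper bound
-/

set_option autoImplicit false

namespace MahlerMult

open Finset

/-- The residue classes modulo the denominator that can occur. -/
lemma classes_bound {b d : ℕ} (hb : 2 ≤ b) (hd : d < b) {β γ ξ : ℝ} {q N : ℕ} {p : ℤ}
    (hξ : ξ = q * β - p) (hq : 0 < q) (hpq : IsCoprime p (q : ℤ)) (hNξ : N * |ξ| < 1)
    (F : Finset ℕ) (hF : ∀ n ∈ F, n < N)
    (hdig : ∀ n ∈ F, ∀ i : ℕ, ⌊(b : ℝ) ^ i * (n * β + γ)⌋ % (b : ℤ) ≠ (d : ℤ)) :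
    #(F.image fun n => n % q) ≤ (b + 2) * (b - 1) ^ Nat.log b q := by
  classical
  have hb0 : (0 : ℝ) < b := by exact_mod_cast (by omega : 0 < b)
  have hq0 : (0 : ℝ) < q := by exact_mod_cast hq
  set m0 := Nat.log b q with hm0
  have hlo : b ^ m0 ≤ q := Nat.pow_log_le_self b hq.ne'
  have hhi : q < b ^ (m0 + 1) := Nat.lt_pow_succ_log_self (by omega) q
  set R := F.image fun n => n % q with hR
  have hex : ∀ r ∈ R, ∃ n ∈ F, n % q = r := fun r hr => by
    obtain ⟨n, hn, h⟩ := mem_image.mp hr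
    exact ⟨n, hn, h⟩
  choose! f hfF hfr using hex
  -- the position of the point at scale `b ^ (-m0)`
  set V : ℕ → ℤ := fun r => ⌊(b : ℝ) ^ m0 * (f r * β + γ)⌋ with hV
  set κ : ℕ → ℤ := fun r => V r % (b : ℤ) ^ m0 with hκ
  have hbm : (0 : ℤ) < (b : ℤ) ^ m0 := by positivity
  have hbmr : (0 : ℝ) < (b : ℝ) ^ m0 := by positivity
  have himage : #(R.image κ) ≤ (b - 1) ^ m0 := by
    have hsub : R.image κ ⊆ {w ∈ Ico (0 : ℤ) (0 + (b : ℤ) ^ m0) | Avoids b d m0 w} := by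
      intro w hw
      obtain ⟨r, hr, rfl⟩ := mem_image.mp hw
      rw [mem_filter, mem_Ico, zero_add]
      refine ⟨⟨Int.emod_nonneg _ hbm.ne', Int.emod_lt_of_pos _ hbm⟩, ?_⟩
      have h1 : κ r = V r + (b : ℤ) ^ m0 * (-(V r / (b : ℤ) ^ m0)) := by
        have := Int.emod_add_mul_ediv (V r) ((b : ℤ) ^ m0)
        simp only [hκ]
        linarith
      rw [h1]
      exact avoids_add hb _ (avoids_floor hb (hdig _ (hfF r hr)) m0)
    exact (card_le_card hsub).trans (count_avoids hb hd m0 0)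
  refine (card_le_mul_card_image (f := κ) R (b + 2) ?_).trans (Nat.mul_le_mul_left _ himage)
  intro k _
  -- the integer attached to a residue class
  set g : ℕ → ℤ := fun r => r * p - q * (V r / (b : ℤ) ^ m0 - ((f r / q : ℕ) : ℤ) * p) with hg
  set A : ℝ := q * k / (b : ℝ) ^ m0 - q * γ with hA
  have hrange : ∀ r ∈ {r ∈ R | κ r = k}, g r ∈ Icc (⌊A - 1⌋ + 1) (⌊A - 1⌋ + (b + 2)) := by
    intro r hr
    rw [mem_filter] at hr
    obtain ⟨hrR, hrk⟩ := hr
    obtain ⟨j, hj⟩ : ∃ j : ℕ, f r / q = j := ⟨_, rfl⟩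
    obtain ⟨w, hw⟩ : ∃ w : ℤ, V r / (b : ℤ) ^ m0 = w := ⟨_, rfl⟩
    have hn : (f r : ℝ) = q * (j : ℝ) + r := by
      have := Nat.div_add_mod (f r) q
      rw [hfr r hrR, hj] at this
      exact_mod_cast this.symm
    have hVw : V r = k + (b : ℤ) ^ m0 * w := by
      have h3 := Int.emod_add_mul_ediv (V r) ((b : ℤ) ^ m0)
      rw [hw] at h3
      have h4 : V r % (b : ℤ) ^ m0 = k := hrk
      rw [← h3, h4]
    have hfl1 : ((V r : ℤ) : ℝ) ≤ (b : ℝ) ^ m0 * (f r * β + γ) := Int.floor_le _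
    have hfl2 : (b : ℝ) ^ m0 * (f r * β + γ) < (V r : ℤ) + 1 := Int.lt_floor_add_one _
    rw [hVw] at hfl1 hfl2
    push_cast at hfl1 hfl2
    -- the error term
    have herr : |(f r : ℝ) * ξ| < 1 := by
      rw [abs_mul, abs_of_nonneg (by positivity : (0 : ℝ) ≤ (f r : ℝ))]
      have : (f r : ℝ) ≤ N := by exact_mod_cast (hF _ (hfF r hrR)).le
      nlinarith [abs_nonneg ξ]
    obtain ⟨he1, he2⟩ := abs_lt.mp herr
    have hgr : ((g r : ℤ) : ℝ) = q * (f r * β + γ - w) - q * γ - f r * ξ := by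
      simp only [hg]
      rw [hj, hw]
      push_cast
      rw [hξ]
      have hr' : (r : ℝ) = f r - q * (j : ℝ) := by linarith
      rw [hr']
      ring
    have hqb : (q : ℝ) < b * (b : ℝ) ^ m0 := by
      have : q < b * b ^ m0 := by rwa [pow_succ'] at hhi
      exact_mod_cast this
    have hk1 : (k : ℝ) / (b : ℝ) ^ m0 ≤ f r * β + γ - w := by
      rw [div_le_iff₀ hbmr]
      nlinarith
    have hk2 : (f r * β + γ - w) * (b : ℝ) ^ m0 < k + 1 := by nlinarith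
    have hlow : A - 1 < g r := by
      rw [hgr, hA]
      have : (q : ℝ) * k / (b : ℝ) ^ m0 = q * (k / (b : ℝ) ^ m0) := by ring
      rw [this]
      nlinarith [mul_le_mul_of_nonneg_left hk1 hq0.le]
    have hupp : (g r : ℝ) < A - 1 + (b + 2) := by
      rw [hgr, hA]
      have h5 : (q : ℝ) * k / (b : ℝ) ^ m0 = q * (k / (b : ℝ) ^ m0) := by ring
      have h6 : (f r * β + γ - w) < k / (b : ℝ) ^ m0 + 1 / (b : ℝ) ^ m0 := by
        rw [← add_div, lt_div_iff₀ hbmr]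
        exact hk2
      have h7 : (q : ℝ) * (1 / (b : ℝ) ^ m0) < b := by
        rw [mul_one_div, div_lt_iff₀ hbmr]
        exact hqb
      rw [h5]
      nlinarith [mul_lt_mul_of_pos_left h6 hq0]
    rw [mem_Icc]
    constructor
    · have : ((⌊A - 1⌋ : ℤ) : ℝ) < g r := lt_of_le_of_lt (Int.floor_le _) hlow
      have : ⌊A - 1⌋ < g r := by exact_mod_cast this
      omega
    · have h8 : A - 1 < ⌊A - 1⌋ + 1 := Int.lt_floor_add_one _
      have h9 : ((g r : ℤ) : ℝ) < ((⌊A - 1⌋ + 1 + (b + 2) : ℤ) : ℝ) := by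
        push_cast
        linarith
      have : g r < ⌊A - 1⌋ + 1 + (b + 2) := by exact_mod_cast h9
      omega
  have hinj : Set.InjOn g ({r ∈ R | κ r = k} : Finset ℕ) := by
    intro r hr r' hr' hgg
    have hrq : ∀ r ∈ R, r < q := fun r hr => by
      obtain ⟨n, _, rfl⟩ := mem_image.mp hr
      exact Nat.mod_lt _ hq
    have hr1 := hrq r (mem_filter.mp (mem_coe.mp hr)).1
    have hr2 := hrq r' (mem_filter.mp (mem_coe.mp hr')).1
    have hdvd : (q : ℤ) ∣ ((r : ℤ) - r') * p := by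
      refine ⟨(V r / (b : ℤ) ^ m0 - ((f r / q : ℕ) : ℤ) * p) -
        (V r' / (b : ℤ) ^ m0 - ((f r' / q : ℕ) : ℤ) * p), ?_⟩
      simp only [hg] at hgg
      linear_combination hgg
    have hdvd2 : (q : ℤ) ∣ (r : ℤ) - r' := hpq.symm.dvd_of_dvd_mul_right hdvd
    have habs : |(r : ℤ) - r'| < q := by
      rw [abs_lt]
      constructor <;> omega
    have := Int.eq_zero_of_abs_lt_dvd hdvd2 habs
    omega
  refine (card_le_card_of_injOn g hrange hinj).trans ?_
  rw [Int.card_Icc]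
  omega

/-- The counting bound for a number none of whose multiples considered has the digit `d`. -/
lemma core {b d : ℕ} (hb : 2 ≤ b) (hd : d < b) {β : ℝ} (hβ : Irrational β) (γ : ℝ) {N : ℕ}
    (hN : 1 ≤ N) (F : Finset ℕ) (hF : ∀ n ∈ F, n < N)
    (hdig : ∀ n ∈ F, ∀ i : ℕ, ⌊(b : ℝ) ^ i * (n * β + γ)⌋ % (b : ℤ) ≠ (d : ℤ)) :
    ∃ m : ℕ, #F ≤ 2 * (b + 2) * (b - 1) ^ m ∧ b ^ m ≤ b ^ 2 * N := by
  classical
  obtain ⟨ρ, hρ1, hρ2⟩ := Real.exists_rat_abs_sub_le_and_den_le β (show 0 < N by omega)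
  set q := ρ.den with hq
  set p := ρ.num with hp
  have hq0 : 0 < q := ρ.den_pos
  have hqr : (0 : ℝ) < q := by exact_mod_cast hq0
  have hN0 : (0 : ℝ) < N := by exact_mod_cast hN
  set ξ : ℝ := q * β - p with hξ
  have hρ : (ρ : ℝ) = p / q := by
    rw [hp, hq]
    exact Rat.cast_def ρ
  have hξ0 : ξ ≠ 0 := by
    intro h
    apply hβ
    refine ⟨ρ, ?_⟩
    rw [hρ, div_eq_iff hqr.ne']
    linarith
  have hξ1 : |ξ| ≤ 1 / (N + 1) := by
    have h1 : ξ = q * (β - ρ) := by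
      rw [hρ, hξ]
      field_simp
    rw [h1, abs_mul, abs_of_pos hqr]
    calc (q : ℝ) * |β - ρ| ≤ q * (1 / ((N + 1) * q)) := mul_le_mul_of_nonneg_left hρ1 hqr.le
      _ = 1 / (N + 1) := by field_simp
  have hNξ : (N : ℝ) * |ξ| < 1 := by
    calc (N : ℝ) * |ξ| ≤ N * (1 / (N + 1)) := mul_le_mul_of_nonneg_left hξ1 hN0.le
      _ < 1 := by rw [mul_one_div, div_lt_one (by linarith)]; linarith
  have hM : 1 ≤ N / q := (Nat.one_le_div_iff hq0).mpr hρ2
  have hMξ : ((N / q : ℕ) : ℝ) * |ξ| < 1 := by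
    have : ((N / q : ℕ) : ℝ) ≤ N := by exact_mod_cast Nat.div_le_self N q
    nlinarith [abs_nonneg ξ]
  have hcop : IsCoprime p (q : ℤ) := by
    rw [hp, hq, Int.isCoprime_iff_nat_coprime]
    simpa using ρ.reduced
  have h1 : #F ≤ (2 * (b - 1) ^ (Nat.log b (N / q) + 2)) * #(F.image fun n => n % q) := by
    refine card_le_mul_card_image _ _ fun r _ => ?_
    refine class_bound hb hd (β := β) (γ := γ) (ξ := ξ) (p := p) (q := q) (r := r) hξ hξ0 hM hMξ _
      ?_ ?_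
    · intro n hn
      rw [mem_filter] at hn
      exact ⟨hn.2, Nat.div_le_div_right (hF n hn.1).le⟩
    · intro n hn
      exact hdig n (mem_filter.mp hn).1
  have h2 := classes_bound hb hd hξ hq0 hcop hNξ F hF hdig
  refine ⟨Nat.log b q + (Nat.log b (N / q) + 2), ?_, ?_⟩
  · calc #F ≤ (2 * (b - 1) ^ (Nat.log b (N / q) + 2)) * ((b + 2) * (b - 1) ^ Nat.log b q) :=
          h1.trans (Nat.mul_le_mul_left _ h2)
      _ = _ := by rw [pow_add (b - 1) (Nat.log b q)]; ring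
  · calc b ^ (Nat.log b q + (Nat.log b (N / q) + 2))
        = b ^ Nat.log b q * b ^ Nat.log b (N / q) * b ^ 2 := by rw [pow_add, pow_add]; ring
      _ ≤ q * (N / q) * b ^ 2 := by
          have e1 := Nat.pow_log_le_self b hq0.ne'
          have e2 := Nat.pow_log_le_self b (show N / q ≠ 0 by omega)
          exact Nat.mul_le_mul_right _ (Nat.mul_le_mul e1 e2)
      _ ≤ N * b ^ 2 := Nat.mul_le_mul_right _ (Nat.mul_div_le N q)
      _ = b ^ 2 * N := mul_comm _ _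

/-- The digit `d` occurs only finitely often in the base `b` expansion of the real number `t`. -/
def FinitelyOften (b d : ℕ) (t : ℝ) : Prop :=
  ∃ j : ℕ, ∀ i : ℕ, j ≤ i → ⌊(b : ℝ) ^ i * t⌋ % (b : ℤ) ≠ (d : ℤ)

/-- Upper bound: of the numbers `n * α + γ`, `n < N`, at most `2 (b+2) (b-1)^2 N ^ θ` have the
digit `d` only finitely often, where `θ = log (b - 1) / log b`. -/
theorem upper {b d : ℕ} (hb : 2 ≤ b) (hd : d < b) {α : ℝ} (hα : Irrational α) (γ : ℝ) (N : ℕ)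
    (hN : 1 ≤ N) :
    ({n : ℕ | n < N ∧ FinitelyOften b d (n * α + γ)}.ncard : ℝ) ≤
      2 * (b + 2) * (b - 1) ^ 2 * (N : ℝ) ^ (Real.log (b - 1) / Real.log b) := by
  classical
  have hfin : {n : ℕ | n < N ∧ FinitelyOften b d (n * α + γ)}.Finite :=
    (Set.finite_lt_nat N).subset fun n hn => hn.1
  set F := hfin.toFinset with hFdef
  have hFm : ∀ n ∈ F, n < N ∧ FinitelyOften b d (n * α + γ) := fun n hn => by
    rw [hFdef, Set.Finite.mem_toFinset] at hn
    exact hn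
  have hex : ∀ n : ℕ, ∃ j : ℕ, n ∈ F → ∀ i : ℕ, j ≤ i →
      ⌊(b : ℝ) ^ i * (n * α + γ)⌋ % (b : ℤ) ≠ (d : ℤ) := fun n => by
    by_cases hn : n ∈ F
    · obtain ⟨j, hj⟩ := (hFm n hn).2
      exact ⟨j, fun _ => hj⟩
    · exact ⟨0, fun h => absurd h hn⟩
  choose J hJ using hex
  set j := F.sup J with hj
  have hb0 : (0 : ℝ) < b := by exact_mod_cast (by omega : 0 < b)
  have hb1 : (1 : ℝ) < b := by exact_mod_cast (by omega : 1 < b)
  have hβ : Irrational ((b : ℝ) ^ j * α) := by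
    have h := hα.natCast_mul (m := b ^ j) (pow_ne_zero _ (by omega))
    simpa using h
  obtain ⟨m, hm1, hm2⟩ := core hb hd hβ ((b : ℝ) ^ j * γ) hN F (fun n hn => (hFm n hn).1) (by
    intro n hn i
    have h1 : (b : ℝ) ^ i * (n * ((b : ℝ) ^ j * α) + (b : ℝ) ^ j * γ) =
        (b : ℝ) ^ (i + j) * (n * α + γ) := by rw [pow_add]; ring
    rw [h1]
    exact hJ n hn _ ((le_sup hn).trans (Nat.le_add_left _ _)))
  have hcard : {n : ℕ | n < N ∧ FinitelyOften b d (n * α + γ)}.ncard = #F :=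
    Set.ncard_eq_toFinset_card _ hfin
  rw [hcard]
  set θ := Real.log (b - 1) / Real.log b with hθ
  have hlogb : 0 < Real.log b := Real.log_pos hb1
  have hbm1 : (1 : ℝ) ≤ (b : ℝ) - 1 := by
    have : (2 : ℝ) ≤ b := by exact_mod_cast hb
    linarith
  have hθ0 : 0 ≤ θ := div_nonneg (Real.log_nonneg hbm1) hlogb.le
  have hpow : (b : ℝ) ^ θ = b - 1 := by
    rw [Real.rpow_def_of_pos hb0, hθ, mul_div_cancel₀ _ hlogb.ne', Real.exp_log (by linarith)]
  have hcast : ((b - 1 : ℕ) : ℝ) = (b : ℝ) - 1 := by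
    rw [Nat.cast_sub (by omega)]
    simp
  calc (#F : ℝ) ≤ ((2 * (b + 2) * (b - 1) ^ m : ℕ) : ℝ) := by exact_mod_cast hm1
    _ = 2 * (b + 2) * ((b : ℝ) - 1) ^ m := by push_cast [hcast]; rfl
    _ = 2 * (b + 2) * ((b : ℝ) ^ m) ^ θ := by
        rw [← Real.rpow_natCast (b : ℝ) m, ← Real.rpow_mul hb0.le, mul_comm (m : ℝ) θ,
          Real.rpow_mul hb0.le, hpow, Real.rpow_natCast]
    _ ≤ 2 * (b + 2) * ((b : ℝ) ^ 2 * N) ^ θ := by
        refine mul_le_mul_of_nonneg_left ?_ (by positivity)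
        refine Real.rpow_le_rpow (by positivity) ?_ hθ0
        exact_mod_cast hm2
    _ = 2 * (b + 2) * ((b - 1) ^ 2 * (N : ℝ) ^ θ) := by
        rw [Real.mul_rpow (by positivity) (by positivity)]
        congr 2
        rw [← Real.rpow_natCast (b : ℝ) 2, ← Real.rpow_mul hb0.le, mul_comm ((2 : ℕ) : ℝ) θ,
          Real.rpow_mul hb0.le, hpow, Real.rpow_natCast]
    _ = _ := by ring

end MahlerMult
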