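import Mathlib

/-!
# Multiples of an irrational number in which a digit occurs only finitely often: upper bound
-/

set_option autoImplicit false

namespace MahlerMult

open Finset

/-- The last `m` digits of the integer `v` in base `b` are different from `d`. -/
def Avoids (b d : ℕ) (m : ℕ) (v : ℤ) : Prop := ∀ i < m, v / (b : ℤ) ^ i % (b : ℤ) ≠ (d : ℤ)

noncomputable instance (b d m : ℕ) : DecidablePred (Avoids b d m) := fun _ => Classical.dec _

lemma avoids_mono {b d m m' : ℕ} {v : ℤ} (h : Avoids b d m v) (hm : m' ≤ m) : Avoids b d m' v :=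
  fun i hi => h i (by omega)

lemma avoids_succ {b d m : ℕ} {v : ℤ} (h : Avoids b d (m + 1) v) :
    v % (b : ℤ) ≠ d ∧ Avoids b d m (v / b) := by
  refine ⟨by simpa using h 0 (by omega), fun i hi => ?_⟩
  have := h (i + 1) (by omega)
  rwa [pow_succ', ← Int.ediv_ediv_of_nonneg (by positivity)] at this

/-- In any `b ^ s` consecutive integers at most `(b - 1) ^ s` avoid `d` in the last `s` digits. -/
lemma count_avoids {b d : ℕ} (hb : 2 ≤ b) (hd : d < b) (s : ℕ) :
    ∀ u : ℤ, #{v ∈ Ico u (u + (b : ℤ) ^ s) | Avoids b d s v} ≤ (b - 1) ^ s := by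
  induction s with
  | zero =>
    intro u
    calc _ ≤ #(Ico u (u + (b : ℤ) ^ 0)) := card_filter_le _ _
      _ = 1 := by simp
      _ ≤ _ := by simp
  | succ s ih =>
    intro u
    have hb0 : (0 : ℤ) < b := by exact_mod_cast (by omega : 0 < b)
    set S := {v ∈ Ico u (u + (b : ℤ) ^ (s + 1)) | Avoids b d (s + 1) v} with hS
    have h1 : #S ≤ (b - 1) ^ s * #(S.image fun v => v % (b : ℤ)) := by
      refine card_le_mul_card_image _ _ fun r hr => ?_
      obtain ⟨v0, hv0, rfl⟩ := mem_image.mp hr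
      set r := v0 % (b : ℤ) with hr'
      have hr0 : 0 ≤ r := Int.emod_nonneg _ hb0.ne'
      set w0 : ℤ := -((r - u) / b) with hw0
      refine le_trans ?_ (ih w0)
      refine card_le_card_of_injOn (fun v => v / (b : ℤ)) ?_ ?_
      · intro v hv
        simp only [coe_filter, Set.mem_ofPred_eq, hS, mem_filter, mem_Ico] at hv ⊢
        obtain ⟨⟨⟨hv1, hv2⟩, hv3⟩, hv4⟩ := hv
        have hdm := Int.emod_add_mul_ediv v b
        have hdm2 := Int.emod_add_mul_ediv (r - u) b
        have hm1 := Int.emod_nonneg (r - u) hb0.ne'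
        have hm2 := Int.emod_lt_of_pos (r - u) hb0
        have hps : (b : ℤ) ^ (s + 1) = b * (b : ℤ) ^ s := pow_succ' _ _
        refine ⟨⟨?_, ?_⟩, (avoids_succ hv3).2⟩
        · by_contra hcon
          push Not at hcon
          have : v / (b : ℤ) + 1 ≤ w0 := hcon
          nlinarith [mul_le_mul_of_nonneg_left this hb0.le]
        · by_contra hcon
          push Not at hcon
          nlinarith [mul_le_mul_of_nonneg_left hcon hb0.le]
      · intro v hv v' hv' hvv
        simp only [coe_filter, Set.mem_ofPred_eq] at hv hv'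
        have h1 := Int.emod_add_mul_ediv v b
        have h2 := Int.emod_add_mul_ediv v' b
        rw [← h1, ← h2, hv.2, hv'.2]
        simp only at hvv
        rw [hvv]
    have h2 : #(S.image fun v => v % (b : ℤ)) ≤ b - 1 := by
      have hsub : (S.image fun v => v % (b : ℤ)) ⊆ (Ico (0 : ℤ) b).erase (d : ℤ) := by
        intro r hr
        obtain ⟨v0, hv0, rfl⟩ := mem_image.mp hr
        simp only [hS, mem_filter] at hv0
        rw [mem_erase, mem_Ico]
        exact ⟨(avoids_succ hv0.2).1, Int.emod_nonneg _ hb0.ne', Int.emod_lt_of_pos _ hb0⟩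
      refine (card_le_card hsub).trans ?_
      rw [card_erase_of_mem (by rw [mem_Ico]; exact ⟨by positivity, by exact_mod_cast hd⟩)]
      simp
    calc #S ≤ (b - 1) ^ s * (b - 1) := h1.trans (Nat.mul_le_mul_left _ h2)
      _ = (b - 1) ^ (s + 1) := (pow_succ _ _).symm

/-- Every positive digit of `t` up to place `m` is different from `d`, in terms of the integer
part of `b ^ m * t`. -/
lemma avoids_floor {b d : ℕ} (hb : 2 ≤ b) {t : ℝ}
    (ht : ∀ i : ℕ, ⌊(b : ℝ) ^ i * t⌋ % (b : ℤ) ≠ (d : ℤ)) (m : ℕ) :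
    Avoids b d m ⌊(b : ℝ) ^ m * t⌋ := by
  intro i hi
  have hb0 : (b : ℝ) ≠ 0 := by positivity
  have : ⌊(b : ℝ) ^ m * t⌋ / (b : ℤ) ^ i = ⌊(b : ℝ) ^ (m - i) * t⌋ := by
    have h1 : (b : ℝ) ^ (m - i) * t = (b : ℝ) ^ m * t / ((b ^ i : ℕ) : ℝ) := by
      push_cast
      rw [pow_sub₀ _ hb0 hi.le]
      field_simp
    rw [h1, Int.floor_div_natCast]
    push_cast
    rfl
  rw [this]
  exact ht _

/-- Adding a multiple of `b ^ m` does not change the last `m` digits. -/
lemma avoids_add {b d m : ℕ} (hb : 2 ≤ b) {v : ℤ} (z : ℤ) (h : Avoids b d m v) :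
    Avoids b d m (v + (b : ℤ) ^ m * z) := by
  intro i hi
  have hb0 : (b : ℤ) ≠ 0 := by positivity
  obtain ⟨j, rfl⟩ : ∃ j, m = i + (j + 1) := ⟨m - i - 1, by omega⟩
  have h1 : v + (b : ℤ) ^ (i + (j + 1)) * z = v + (b : ℤ) ^ i * ((b : ℤ) ^ (j + 1) * z) := by
    rw [pow_add]; ring
  rw [h1, Int.add_mul_ediv_left _ _ (pow_ne_zero _ hb0), pow_succ', mul_assoc,
    Int.add_mul_emod_self_left]
  exact h i hi

end MahlerMult
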